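import Pool.Agent.C4U.Stmts

/-!
Squad C4U (MP_be2f05_lc), row PSI: the first improving pair.
-/

set_option autoImplicit false

namespace Pool.Agent.C4U.H45

open Pool.Agent.C4F (cn)
open Pool.Agent.C4U

/-- ROW PSI -/
theorem psi (h1 : CnlStmt) : PsiStmt := by
  obtain ⟨-, h2, -, -, -⟩ := h1
  intro V
  have h3 := h2 (fun p => ∀ q < p + 1, ¬ V.Im (q / V.N) (q % V.N)) (V.N * V.N)
    (fun u v huv hv q hq => hv q (by omega))
  obtain ⟨h4, h5⟩ := h3
  refine ⟨?_, ?_⟩
  · intro hI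
    have h6 : ¬ ∀ q < V.ps + 1, ¬ V.Im (q / V.N) (q % V.N) := h5 hI
    push Not at h6
    obtain ⟨q, hq, hIm⟩ := h6
    have hq' : q < V.ps + 1 := hq
    rcases Nat.lt_succ_iff_lt_or_eq.1 hq' with h7 | h7
    · exact absurd hIm (h4 q h7 q (Nat.lt_succ_self q))
    · subst h7
      exact hIm
  · intro hI x y hIm
    have hx := hIm.1
    have hy := hIm.2.1
    have hq : x * V.N + y < V.N * V.N := by
      have h8 : (x + 1) * V.N ≤ V.N * V.N := Nat.mul_le_mul_right _ hx
      rw [Nat.succ_mul] at h8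
      omega
    have h9 : x * V.N + y < V.ps := by
      have h10 : ¬ V.ps < V.N * V.N := hI
      omega
    have h11 := h4 _ h9 (x * V.N + y) (Nat.lt_succ_self _)
    have h12 : (x * V.N + y) / V.N = x := by
      rw [Nat.mul_comm, Nat.mul_add_div (by omega), Nat.div_eq_of_lt hy, Nat.add_zero]
    have h13 : (x * V.N + y) % V.N = y := by
      rw [Nat.mul_comm, Nat.mul_add_mod, Nat.mod_eq_of_lt hy]
    rw [h12, h13] at h11
    exact h11 hIm

end Pool.Agent.C4U.H45
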